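import Pool.Agent.H64.CC.Bridge

set_option autoImplicit false

/-!
# The sign conjecture for generic complete intersections
-/

namespace Pool.Agent.H64.Kept.GenericIntersections

open Pool.Agent.H64.CC Matrix

/-- Let `W` be a Weil cohomology for the smooth projective connected varieties over the fields
`F 0 ⊂ F 1 ⊂ …`, where `F n` is the algebraic closure of the field of rational functions in `n`
variables over the prime field of characteristic `p`, in which the Künneth projectors of the
varieties over `F 0` are algebraic (Katz and Messing). Let `V` be a variety over `F 0` of dimension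
`d`, and let `L` be ample on `V`.

(a) Let `T` be a generic complete intersection, of dimension `D`, of `r ≥ 1` members of the linear
systems of multiples of `L`. The following are equivalent: the sign conjecture `C⁺(T)`; the Künneth projectors
of `T` are algebraic in the degrees which do not have the parity of `D`; for the `j < D` which do
not have the parity of `D` the map `L ^ r : Hʲ(V) → H^(j + 2r)(V)` has an algebraic left inverse;
for these `j` the map `L ^ r` is not numerically trivial on any algebraic idempotent `e ≠ 0` of
`Hʲ(V)`. The following are also equivalent: the Künneth conjecture `C(T)`; for all `j < D` the map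
`L ^ r : Hʲ(V) → H^(j + 2r)(V)` has an algebraic left inverse; for these `j` it is not numerically
trivial on any algebraic idempotent `e ≠ 0` of `Hʲ(V)`.

(b) Let `T'` be a generic complete intersection of `r + 1` members, which has dimension `D - 1`. If
`C⁺(T)` and `C⁺(T')` hold, then `C(T)` holds.

(c) Suppose that there are generic complete intersections of `r` members for `1 ≤ r < d`. The
following are equivalent: `C⁺(T)` for all these generic complete intersections `T` in `V`; `C(T)`
for all of them; for the `j < d - 1` the map `L ^ (d - 1 - j) : Hʲ(V) → H^(2d - 2 - j)(V)` has an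
algebraic left inverse; for these `j` it is not numerically trivial on any algebraic idempotent
`e ≠ 0` of `Hʲ(V)`. -/
theorem result {K : Type} [Field K] [CharZero K] (W : Weil K) (hW : W.Theory) (V : W.Var 0)
    (t : W.Transposition V) (L : W.Hom V V) (hL : L ∈ W.Lef V) :
    (∀ (r m : ℕ) (T : W.Var m), 1 ≤ r → Nonempty (W.GenericIntersection V L r T) →
      List.TFAE [
        W.Cplus T,
        ∀ j, ¬ (Even j ↔ Even (W.dim T)) → W.pj T j ∈ W.cyc T T 0,
        ∀ j < W.dim T, ¬ (Even j ↔ Even (W.dim T)) → W.LeftInverse V L r j,
        ∀ j < W.dim T, ¬ (Even j ↔ Even (W.dim T)) → W.NumInjective V L r j] ∧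
      List.TFAE [
        W.C T,
        ∀ j < W.dim T, W.LeftInverse V L r j,
        ∀ j < W.dim T, W.NumInjective V L r j]) ∧
    (∀ (r m m' : ℕ) (T : W.Var m) (T' : W.Var m'), 1 ≤ r →
      Nonempty (W.GenericIntersection V L r T) →
      Nonempty (W.GenericIntersection V L (r + 1) T') → W.Cplus T → W.Cplus T' → W.C T) ∧
    ((∀ r, 1 ≤ r → r < W.dim V →
        ∃ (m : ℕ) (T : W.Var m), Nonempty (W.GenericIntersection V L r T)) →
      List.TFAE [
        ∀ (r m : ℕ) (T : W.Var m), 1 ≤ r → Nonempty (W.GenericIntersection V L r T) → W.Cplus T,
        ∀ (r m : ℕ) (T : W.Var m), 1 ≤ r → Nonempty (W.GenericIntersection V L r T) → W.C T,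
        ∀ j, j + 1 < W.dim V → W.LeftInverse V L (W.dim V - 1 - j) j,
        ∀ j, j + 1 < W.dim V → W.NumInjective V L (W.dim V - 1 - j) j]) :=
  ⟨fun _ _ _ hr ⟨S⟩ => ⟨cplus_crit W hW t hL S hr, c_crit W hW t hL S hr⟩,
    fun _ _ _ _ _ hr ⟨S⟩ ⟨S'⟩ h h' => pair_crit W hW t hL S hr S' h h', all_crit W hW t hL⟩

end Pool.Agent.H64.Kept.GenericIntersections
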