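import Pool.Agent.H64.CC.Ind

set_option autoImplicit false

/-!
# The sign conjecture in characteristic p does not depend on the Weil cohomology
-/

namespace Pool.Agent.Results.MP_fd35e1_ag.IndependenceOfCohomology

open Pool.Agent.H64.CC Matrix

/-- Let `W` and `W'` be two Weil cohomologies for the smooth projective connected varieties over the
fields `F 0 ⊂ F 1 ⊂ …`, where `F n` is the algebraic closure of the field of rational functions in
`n` variables over the prime field of characteristic `p`, for instance crystalline cohomology and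
`ℓ`-adic cohomology (`Comparison`).

(a) Let `V` be a variety over `F 0` and let `T` be a generic complete intersection in `V`. Then the
sign conjecture `C⁺(T)` for `W` is equivalent to the sign conjecture `C⁺(T)` for `W'`, and the
Künneth conjecture `C(T)` for `W` is equivalent to `C(T)` for `W'`.

(b) Suppose that `C⁺(T)` holds for `W` and all varieties `T` of odd dimension at most
`2 ^ (n + 1) (d + 1) - 3`. Then `C(X)` and the Lefschetz conjecture `B(X)` hold for `W'` and all
varieties `X` over `F n` of dimension `d`.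

(c) The following are equivalent: `C⁺(X)` for `W` and all varieties `X`; `C⁺(X)` for `W'` and all
varieties `X`; `C(X)` for `W` and all varieties `X`; `C(X)` for `W'` and all varieties `X`. -/
theorem result {K K' : Type} [Field K] [CharZero K] [Field K'] [CharZero K'] (W : Weil K)
    (W' : Weil K') (hW : W.Theory) (hW' : W'.Theory) (R : Comparison W W') :
    (∀ (V : W.Var 0) (V' : W'.Var 0), R.Same V V' → W.Transposition V → W'.Transposition V' →
      ∀ L ∈ W.Lef V, ∀ L' ∈ W'.Lef V', R.Cyc V V' 1 L L' → ∀ (r m : ℕ) (T : W.Var m)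
        (T' : W'.Var m), 1 ≤ r → Nonempty (W.GenericIntersection V L r T) →
        Nonempty (W'.GenericIntersection V' L' r T') →
        (W.Cplus T ↔ W'.Cplus T') ∧ (W.C T ↔ W'.C T')) ∧
    (W.Sections → W'.Models → ∀ n d : ℕ,
      (∀ (m : ℕ) (T : W.Var m), Odd (W.dim T) → W.dim T + 3 ≤ 2 ^ (n + 1) * (d + 1) →
        W.Cplus T) →
      ∀ X : W'.Var n, W'.dim X = d → W'.C X ∧ W'.B X) ∧
    (W.Sections → W.Models → W'.Sections → W'.Models → List.TFAE [
      ∀ (n : ℕ) (X : W.Var n), W.Cplus X,
      ∀ (n : ℕ) (X : W'.Var n), W'.Cplus X,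
      ∀ (n : ℕ) (X : W.Var n), W.C X,
      ∀ (n : ℕ) (X : W'.Var n), W'.C X]) :=
  ⟨fun _ _ hV t t' _ hL _ hL' hLL _ _ _ _ hr ⟨S⟩ ⟨S'⟩ =>
      gi_same hW hW' R hV t t' hL hL' hLL hr S S', bdd_same hW hW' R, glob_same hW hW' R⟩

end Pool.Agent.Results.MP_fd35e1_ag.IndependenceOfCohomology
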