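import Pool.Agent.H6.CM.Main

set_option autoImplicit false

/-!
# The conjecture C⁺ can be tested modulo the classes coming from dimension `≤ 1`
-/

namespace Pool.Agent.Results.MP_fd35e1_ag.ModuloLevelOne

open Pool.Agent.H6.CM Matrix

/-- Let `W` be a cohomology theory with algebraic correspondences, with coefficients in a field of
characteristic zero, for which Weil's theorems on curves hold, and let `X` be a variety. Write
`L₁` for the subspace of the cohomology of `X` spanned by the images of the first cohomology groups
of curves under correspondences, and `L₀` for the span of the classes of algebraic cycles.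
The following are equivalent:

1. `C⁺(X)`: the even Künneth projector is the class of an algebraic cycle;
2. some correspondence is zero on the even cohomology, and the identity modulo `L₁` on the odd
   cohomology;
3. some correspondence is zero on the even cohomology, and the identity on the odd classes which
   are orthogonal to `L₁`;
4. some correspondence is zero on the odd cohomology, and the identity modulo `L₀` on the even
   cohomology;
5. some correspondence is zero on the odd cohomology, and the identity on the even classes which
   are orthogonal to `L₀`. -/
theorem result {K : Type} [Field K] [CharZero K] (W : Theory K) (hW : W.Low) (X : W.Var) :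
    [W.Cplus X,
      ∃ c ∈ W.cyc X X (W.dim X), W.KillsEven c ∧
        ∀ i x, Odd i → W.Hom X i x → x - c *ᵥ x ∈ W.Part 1 X,
      ∃ c ∈ W.cyc X X (W.dim X), W.KillsEven c ∧
        ∀ i x, Odd i → W.Hom X i x → W.Perp 1 X x → c *ᵥ x = x,
      ∃ b ∈ W.cyc X X (W.dim X), W.KillsOdd b ∧
        ∀ i x, Even i → W.Hom X i x → x - b *ᵥ x ∈ W.Part 0 X,
      ∃ b ∈ W.cyc X X (W.dim X), W.KillsOdd b ∧
        ∀ i x, Even i → W.Hom X i x → W.Perp 0 X x → b *ᵥ x = x].TFAE :=
  W.tfae_perp hW X

end Pool.Agent.Results.MP_fd35e1_ag.ModuloLevelOne
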