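import Pool.Agent.H16.CS.Fin
import Pool.Agent.H71.CS.TRP
import Pool.Agent.H54.CS.NIL
import Pool.Agent.H4.CS.MUA
import Pool.Agent.H69.CS.MUB
import Pool.Agent.H4.CS.RAT
import Pool.Agent.H4.CS.DEN
import Pool.Agent.H4.CS.GOO

set_option autoImplicit false

/-!
# Numerical form of the sign conjecture C⁺ in an arbitrary Weil cohomology
-/

namespace Pool.Agent.Results.MP_fd35e1_ag.NumericalSignCriterion

open Pool.Agent.H16.CS

/-- Let `R` be the ring of rational self-correspondences of a smooth proper variety of dimension `d`,
`num f` the intersection number of `f` with the diagonal, and `ρ` the realisation of `R` in a Weil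
cohomology with coefficients in a field `K` of characteristic zero (all that is used is that `R` acts
on the cohomology groups and that the Lefschetz trace formula holds). The following are equivalent:

1. `C⁺`: the even Künneth projector `π⁺` is the class of a cycle with rational coefficients;
2. `π⁺` is a `K`-linear combination of classes of cycles;
3. every `K`-subspace of the total cohomology which is stable under all correspondences is the direct
   sum of its even part and its odd part;
4. some correspondence has coprime characteristic polynomials on the even and on the odd cohomology;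
5. the dimension of the even cohomology is the greatest intersection number with the diagonal of a
   correspondence which is idempotent up to numerical equivalence;
6. the total Betti number is the greatest intersection number with the diagonal of a correspondence
   whose square is numerically equivalent to the diagonal;
7. some correspondence `f` satisfies `(f ^ n . Δ) = dim H⁺` for `1 ≤ n ≤ dim H⁺ + dim H⁻ + 1`;
8. for every other realisation (every other Weil cohomology) with the same dimensions of the even and
   of the odd cohomology there is one cycle with rational coefficients whose class is `π⁺` in both. -/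
theorem result {R : Type} [Ring R] [Algebra ℚ R] {num : R →ₗ[ℚ] ℚ} {d : ℕ} {K : Type} [Field K]
    [CharZero K] (ρ : Realisation R num d K) :
    [ρ.Cplus,
     ρ.CplusK,
     ρ.StableSplit,
     ∃ f : R, IsCoprime (ρ.chE f) (ρ.chO f),
     IsGreatest {q : ℚ | ∃ e : R, NumIdem num e ∧ num e = q} (ρ.bev : ℚ),
     IsGreatest {q : ℚ | ∃ s : R, NumInvol num s ∧ num s = q} ((ρ.bev : ℚ) + ρ.bodd),
     ∃ f : R, ∀ n : ℕ, 1 ≤ n → n ≤ ρ.bev + ρ.bodd + 1 → num (f ^ n) = ρ.bev,
     ∀ (d' : ℕ) (K' : Type) [Field K'] [CharZero K'] (ρ' : Realisation R num d' K'),
       ρ'.bev = ρ.bev → ρ'.bodd = ρ.bodd → ∃ f : R, ρ.act f = ρ.pie ∧ ρ'.act f = ρ'.pie].TFAE :=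
  Pool.Agent.H16.CS.main Pool.Agent.H71.CS.trp Pool.Agent.H54.CS.nil Pool.Agent.H4.CS.mua
    Pool.Agent.H69.CS.mub Pool.Agent.H4.CS.rat Pool.Agent.H4.CS.den Pool.Agent.H4.CS.goo ρ

end Pool.Agent.Results.MP_fd35e1_ag.NumericalSignCriterion
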