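import Pool.Agent.H64.CC.Fam

set_option autoImplicit false

/-!
# The Künneth conjecture for complete intersections in products
-/

namespace Pool.Agent.Results.MP_fd35e1_ag.ProductIntersections

open Pool.Agent.H64.CC Matrix

/-- Let `W` be a Weil cohomology for the smooth projective connected varieties over the fields
`F 0 ⊂ F 1 ⊂ …`, where `F n` is the algebraic closure of the field of rational functions in `n`
variables over the prime field of characteristic `p`, in which the Künneth projectors of the
varieties over `F 0` are algebraic (Katz and Messing). Let `Y` and `Z` be varieties over `F 0`, with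
the ample classes `L` and `M`, and let `T`, over some `F m`, be a smooth complete intersection of
`r ≥ 1` members of the linear systems of multiples of `L ⊗ 1 + 1 ⊗ M` in `Y × Z`. The Künneth
conjecture `C(T)`, and hence the sign conjecture `C⁺(T)`, holds in the following cases:

(a) `Bᵢ(Y)` holds for `i < i₀`, where `i₀ ≥ 2`, `B(Z)` holds, and `M ^ r` is injective on `Hᵇ(Z)`
for `b < dim T - i₀`;

(b) `dim Y ≤ 3` and `B(Z)` holds;

(c) `dim Y ≤ 3`, `dim Z ≤ 3` and `r ≥ 2`.

In (b) and (c) it is used that `B₀` and `B₁` hold for the varieties over `F 0` (`Low`), which is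
known; (a) can always be applied with `i₀ = 2`. -/
theorem result {K : Type} [Field K] [CharZero K] (W : Weil K) (hW : W.Theory) (Y Z : W.Var 0)
    (t : W.Transposition (W.prod Y Z)) (L : W.Hom Y Y) (hL : L ∈ W.Lef Y) (M : W.Hom Z Z)
    (hM : M ∈ W.Lef Z) (r m : ℕ) (hr : 1 ≤ r) (T : W.Var m)
    (S : Nonempty (W.Intersection (W.prod Y Z) (W.box L M) r T)) :
    (∀ i₀, 2 ≤ i₀ → (∀ i < i₀, W.BDeg Y i) → W.B Z →
      (∀ b, b + i₀ < W.dim T → ∀ v, W.InH Z b v → W.ap (W.pw M r) v = 0 → v = 0) → W.C T) ∧
    (W.Low → W.dim Y ≤ 3 → W.B Z → W.C T) ∧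
    (W.Low → W.dim Y ≤ 3 → W.dim Z ≤ 3 → 2 ≤ r → W.C T) :=
  ⟨fun _ he hY hZ hS => fam_general W hW t hL hM hr S he hY hZ hS,
    fun hLow hY hZ => fam_three W hW t hL hM hr S hLow hY hZ,
    fun hLow hY hZ hr2 => fam_two W hW t hL hM hr S hLow hY hZ hr2⟩

end Pool.Agent.Results.MP_fd35e1_ag.ProductIntersections
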