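import Pool.Agent.H6.CM.Main

set_option autoImplicit false

/-!
# The conjecture C⁺ and decompositions of the diagonal
-/

namespace Pool.Agent.Results.MP_fd35e1_ag.ThinDiagonal

open Pool.Agent.H6.CM Matrix

/-- Let `W` be a cohomology theory with algebraic correspondences in which cycles of dimension `m`
factor through varieties of dimension `m` (alterations), and suppose that `C⁺` holds for all
varieties of dimension at most `e`. Let `X` be a variety of dimension `d`, and call thin the
correspondences which are sums of correspondences supported on products `A × B` with
`2 dim A ≤ d + e` or `dim A + dim B ≤ d + e`. The following are equivalent: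

1. `C⁺(X)`: the even Künneth projector is the class of an algebraic cycle;
2. the identity is `b + c` modulo thin correspondences, where `b` and `c` are correspondences which
   are zero on the odd, respectively on the even cohomology;
3. the identity is, modulo thin correspondences, a sum of correspondences which factor through
   varieties satisfying `C⁺`. -/
theorem result {K : Type} [Field K] (W : Theory K) (hA : W.Alterations) (e : ℕ)
    (hlow : ∀ T : W.Var, W.dim T ≤ e → W.Cplus T) (X : W.Var) :
    [W.Cplus X,
      ∃ b ∈ W.cyc X X (W.dim X), ∃ c ∈ W.cyc X X (W.dim X), W.KillsOdd b ∧ W.KillsEven c ∧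
        1 - b - c ∈ W.Thin e X,
      ∃ f ∈ W.Through X, 1 - f ∈ W.Thin e X].TFAE :=
  W.tfae_thin hA e hlow X

end Pool.Agent.Results.MP_fd35e1_ag.ThinDiagonal
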