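import Pool.Agent.H64.FT.Final

set_option autoImplicit false

/-!
# The Künneth projectors of threefolds which are not of general type
-/

namespace Pool.Agent.H64.Kept.ThreefoldsNotOfGeneralType

open Pool.Agent.H64.CC Pool.Agent.H64.FT

/-- Let `F n` be the algebraic closure of the field of rational functions in `n` variables over the
prime field of characteristic `p`. Let `W` and `W'` be two Weil cohomologies for the smooth
projective connected varieties over the fields `F n`, the `ℓ`-adic and the crystalline cohomology,
with Poincaré duality and the theorems of Kleiman, Matsusaka and Murre (`Known`), and with the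
fibrations over curves (`Fibrations`). The comparison `Φ` is the theorem of Katz and Messing, and
`Classification` the classification of curves and surfaces.

Let `X` be a threefold over `F n`. All Künneth projectors of `X` are algebraic, for the `ℓ`-adic and
for the crystalline cohomology, and so the conjecture `C⁺(X)` holds, in the following cases.
* `X` is covered by curves of geometric genus at most `1`.
* `X` has a dominant rational map to a curve whose fibres are surfaces which are not of general type.
* `X` is of Kodaira dimension `1` or `2`.
* `p > 5` and `X` is not of general type, unless `X` is of Kodaira dimension `0`, `H¹(X) = 0` and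
  `H²(X)` is not generated by the classes of divisors.
* `X` has a fibration over a curve, with geometric generic fibre `Y`, and the classes in `H²(Y)`
  which are fixed by the monodromy group are combinations of classes of divisors.
* `X` has a fibration over a curve, with geometric generic fibre `Y`, the monodromy group acts
  non-trivially on the transcendental part of the crystalline cohomology `H²(Y)`, the part of slope
  less than `1` of `H²(Y)` is simple, and the Tate conjecture for divisors is known for `Y`.
* `X` is the fibre product of two surfaces fibred over a curve, with generic fibres `S₁` and `S₂`,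
  and `H¹(S₁)` degenerates.

More generally, `X` can be dominated by a threefold `X'` as above. -/
theorem result {K K' : Type} [Field K] [CharZero K] [Field K'] [CharZero K'] (W : Weil K)
    (hW : W.Calculus) (hP : W.Products) (D : Duality W) (hK : Known W D) (𝓕 : Fibrations W)
    (h𝓕 : 𝓕.Theory D) (W' : Weil K') (hW' : W'.Calculus) (D' : Duality W') (hK' : Known W' D')
    (𝓕' : Fibrations W') (h𝓕' : 𝓕'.Theory D') (Φ : Pool.Agent.H90.FT.Comparison W W')
    (T : Classification W 𝓕 W' 𝓕' Φ) (hI : T.Iitaka) (n : ℕ) (X X' : W.Var n)
    (hX : W.dim X = 3) (hX' : W.dim X' = 3) (hdom : X' = X ∨ RatDominates W X' X)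
    (h : T.LowGenus X' ∨ T.Special X' ∨ T.kod X' = 1 ∨ T.kod X' = 2 ∨
      (T.MinimalModels ∧ T.kod X' < 3 ∧
        ¬ (T.kod X' = 0 ∧ Vanishes W X' 1 ∧ ¬ AllDivisors W X')) ∨
      Invariant 𝓕 X' ∨ Slope 𝓕' (Φ.var X') ∨ FibreProduct 𝓕 X') :
    (W.C X ∧ W.Cplus X) ∧ W'.C (Φ.var X) ∧ W'.Cplus (Φ.var X) := by
  have hC : W.C X' := by
    have hk : T.kod X' = 1 ∨ T.kod X' = 2 → W.C X' := by
      intro h
      rcases hI X' hX' h with h | h
      · exact C_of_lowGenus hW hP hK h𝓕 T hX' h
      · exact C_of_special hW hP hK h𝓕 hW' hK' h𝓕' T hX' h
    rcases h with h | h | h | h | ⟨hM, h3, h0⟩ | h | h | h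
    · exact C_of_lowGenus hW hP hK h𝓕 T hX' h
    · exact C_of_special hW hP hK h𝓕 hW' hK' h𝓕' T hX' h
    · exact hk (Or.inl h)
    · exact hk (Or.inr h)
    · exact C_of_kod hW hP hK h𝓕 hW' hK' h𝓕' T hI hM hX' h3 h0
    · exact C_of_invariant hW hK h𝓕 hX' h
    · exact (Pool.Agent.H90.FT.transfer_C Φ hW hW' X').2 (C_of_slope hW' hK' h𝓕' h)
    · exact C_of_fibreProduct hW hK h𝓕 hX' h
  have hCX : W.C X := by
    rcases hdom with rfl | hdom
    · exact hC
    · exact C_of_rat hW hK (by omega) hdom hC
  have hC' := (Pool.Agent.H90.FT.transfer_C Φ hW hW' X).1 hCX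
  exact ⟨⟨hCX, cplus_of_C hW hCX⟩, hC', cplus_of_C hW' hC'⟩

end Pool.Agent.H64.Kept.ThreefoldsNotOfGeneralType
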